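import Pool.Agent.TIFX.R7
import Pool.Agent.TIFT.CM

/-!
# [TIF, block PIG] (RAT) for the monomials `Cmm`
-/

set_option autoImplicit false
set_option linter.unusedSectionVars false

open Polynomial IsLocalRing

namespace Pool.Agent.TIFX

open GT TIF Pool.Agent.TIFT Pool.Agent.TIFP

section

variable {k Ω : Type} [Field k] [Field Ω] [Algebra k Ω] [IsAlgClosed Ω] {d : ℕ} [NeZero d]
  {T : Tab Ω d} [IsDedekindDomain (WB T)] {ρ : Type} [Fintype ρ]

theorem td_za (hT : Tk k T) {n : ℕ} (D : TD k T ρ (kbF k Ω) n) :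
    Za k (fun (i : Fin n) r => cl (D.B r i)) := by
  refine ⟨fun i r => cl_mem_JK hT _ (D.pk r i), funext fun r => ?_⟩
  rw [Finset.prod_apply, Pi.one_apply]
  exact TD.prod_cl D r

theorem rat_cmm (hU : Univ k Ω) (hT : Tk k T) {N : ℕ} {s : (ρ → ClassGroup (WB T)) → Ω}
    (hs : s ∈ HH T ρ (kbF k Ω) N) (h0 : s ≠ 0) {x : ρ → ClassGroup (WB T)}
    (hx : GenA (kbF k Ω) x) {κ : IntermediateField k Ω} (hκ : kbF k Ω ≤ κ) {n : ℕ} (hn : 3 ≤ n)
    (h : ∀ a : Fin n → ρ → ClassGroup (WB T), Za k a →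
      (∏ i, s (x * a i)) * Cmm k n a x ^ N / s x ^ n ∈ κ) (r : ρ) :
    x r ^ N ∈ JK (T := T) (κ : Set Ω) := by
  classical
  have hac : IsAlgClosed (kbF k Ω) := IsAlgClosure.isAlgClosed k
  obtain ⟨m, rfl⟩ : ∃ m, n = m + 1 + 1 + 1 := ⟨n - 3, by omega⟩
  refine rat_main hU hT (small_kb k Ω) hs h0 hx hκ (n := m) ?_ r
  intro D
  obtain ⟨D', h1, h2⟩ := cmm_eq hT (td_za hT D)
  obtain ⟨c, hc, -, hcc⟩ := tmf_congr hU hT (small_kb k Ω) D' D h1
  have h3 := h _ (td_za hT D)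
  rw [h2] at h3
  rw [hcc x, mul_pow]
  have h4 := κ.mul_mem (pow_mem (hκ hc) N) h3
  convert h4 using 1
  ring

end

end Pool.Agent.TIFX
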