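import Pool.Agent.TIFT.G2
import Pool.Agent.TIFT.C3
import Pool.Agent.TIFT.R

/-!
# [TIF, block PIG] input RAT: preliminaries
-/

set_option autoImplicit false
set_option linter.unusedSectionVars false

open Polynomial IsLocalRing

namespace Pool.Agent.TIFX

open GT TIF Pool.Agent.TIFT Pool.Agent.TIFP

section

variable {k Ω : Type} [Field k] [Field Ω] [Algebra k Ω] [IsAlgClosed Ω] {d : ℕ} [NeZero d]
  {T : Tab Ω d} [IsDedekindDomain (WB T)]

/-- there are infinitely many points over an algebraically closed field -/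
theorem exists_pk (hT : Tk k T) (K : IntermediateField k Ω) [IsAlgClosed K] (S : List (Pt T)) :
    ∃ P : Pt T, PK k (K : Set Ω) P ∧ P ∉ S := by
  classical
  have hinf : Infinite K := IsAlgClosed.instInfinite
  have hfin : {c : K | ∃ P ∈ S, xx P = (c : Ω)}.Finite := by
    have h1 : ((fun c : K => (c : Ω)) ⁻¹' {z | ∃ P ∈ S, xx P = z}).Finite := by
      apply Set.Finite.preimage Subtype.val_injective.injOn
      have h2 : {z | ∃ P ∈ S, xx P = z} = xx '' {P | P ∈ S} := by
        ext z; simp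
      rw [h2]
      exact (List.finite_toSet S).image _
    exact h1
  obtain ⟨c, hc⟩ := hfin.exists_notMem
  obtain ⟨P, hP⟩ := exists_xx T (c : Ω)
  refine ⟨P, (PK_iff_xx hT K P).2 (by rw [hP]; exact c.2), fun hS => hc ⟨P, hS, hP⟩⟩

/-- a function with infinitely many zeros is zero -/
theorem zero_of_pk (hT : Tk k T) (K : IntermediateField k Ω) [IsAlgClosed K] (S : List (Pt T))
    {b : WB T} (h : ∀ P : Pt T, PK k (K : Set Ω) P → P ∉ S → P b = 0) : b = 0 := by
  by_contra hb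
  obtain ⟨Z, hZ⟩ := exists_dI (T := T) (I := Ideal.span {b}) (by
    rw [Ne, Ideal.span_singleton_eq_bot]
    exact hb)
  obtain ⟨P, hP, hPS⟩ := exists_pk hT K (S ++ Z)
  rw [List.mem_append, not_or] at hPS
  have h1 := h P hP hPS.1
  have h2 : dI Z ≤ mP P := by
    rw [hZ, Ideal.span_singleton_le_iff_mem]
    exact h1
  exact hPS.2 (dI_le_mP.1 h2)

theorem eq_of_pk (hT : Tk k T) (K : IntermediateField k Ω) [IsAlgClosed K] (S : List (Pt T))
    {b c : WB T} (h : ∀ P : Pt T, PK k (K : Set Ω) P → P ∉ S → P b = P c) : b = c := by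
  rw [← sub_eq_zero]
  exact zero_of_pk hT K S fun P hP hPS => by rw [map_sub, h P hP hPS, sub_self]

/-- two functions whose quotient has values in `κ` at infinitely many points over `κ` -/
theorem exists_AB (hT : Tk k T) (K κ : IntermediateField k Ω) [IsAlgClosed K] (hK : K ≤ κ)
    (S : List (Pt T)) {q q' : WB T} (h0 : q' ≠ 0)
    (h : ∀ P : Pt T, PK k (K : Set Ω) P → P ∉ S → ∃ r ∈ κ, P q = r * P q') :
    ∃ A B : WB T, Cf (κ : Set Ω) A ∧ Cf (κ : Set Ω) B ∧ B ≠ 0 ∧ A * q' = B * q := by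
  obtain ⟨π, hπ⟩ := exists_fn κ.toSubfield
  obtain ⟨j, n, hc⟩ : ∃ j n, (q'.co j).coeff n ≠ 0 := by
    by_contra hno
    push Not at hno
    apply h0
    refine WB.ext (funext fun j => ?_)
    ext n
    rw [hno j n]
    simp
  set c := (q'.co j).coeff n with hcdef
  refine ⟨pm (eW T) (fn π) (c⁻¹ • q), pm (eW T) (fn π) (c⁻¹ • q'), ?_, ?_, ?_, ?_⟩
  · exact (cf_iff _ _).2 (pm_cf (eW T) π _)
  · exact (cf_iff _ _).2 (pm_cf (eW T) π _)
  · intro hB
    have h1 := congrArg (fun b => (eW T).repr b (n, j)) hB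
    simp only [pm_repr, map_smul, Finsupp.smul_apply, eW_repr, smul_eq_mul, map_zero,
      Finsupp.zero_apply] at h1
    rw [← hcdef, inv_mul_cancel₀ hc, hπ] at h1
    exact one_ne_zero h1
  · apply eq_of_pk hT K S
    intro P hP hPS
    have hP' : PK k (κ : Set Ω) P := fun b hb => hK (hP b hb)
    obtain ⟨r, hr, hr'⟩ := h P hP hPS
    have e1 : P (c⁻¹ • q) = r * (c⁻¹ * P q') := by
      rw [map_smul, smul_eq_mul, hr']
      ring
    have e2 : P (c⁻¹ • q') = c⁻¹ * P q' := by rw [map_smul, smul_eq_mul]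
    rw [map_mul, map_mul, r_pm_pt κ hP' π, r_pm_pt κ hP' π, e1, e2, fn_mul π _ r hr, hr']
    ring

/-- sums of rational ideals -/
theorem ratI_sup {K : Set Ω} {I J : Ideal (WB T)} (hI : RatI K I) (hJ : RatI K J) :
    RatI K (I ⊔ J) := by
  apply le_antisymm
  · apply sup_le
    · exact (le_of_eq hI).trans (Ideal.span_mono fun b hb => ⟨Ideal.mem_sup_left hb.1, hb.2⟩)
    · exact (le_of_eq hJ).trans (Ideal.span_mono fun b hb => ⟨Ideal.mem_sup_right hb.1, hb.2⟩)
  · rw [Ideal.span_le]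
    rintro b ⟨hb, -⟩
    exact hb

/-- `𝔞 I = 𝔟 J` with coprime `I`, `J`: `(𝔞 + 𝔟) I = 𝔟` -/
theorem sup_mul_eq {R : Type} [CommRing R] {a b I J : Ideal R} (h : a * I = b * J)
    (hc : I ⊔ J = ⊤) : (a ⊔ b) * I = b := by
  rw [Ideal.sup_mul, h, ← Ideal.mul_sup, sup_comm J I, hc, Ideal.mul_top]

end

end Pool.Agent.TIFX
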