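import Pool.Agent.TIFX.R1
import Pool.Agent.TIFT.U1c
import Pool.Agent.TIFT.U7
import Pool.Agent.TIFT.U8a

/-!
# [TIF, block PIG] input RAT: expansions in theta monomials
-/

set_option autoImplicit false
set_option linter.unusedSectionVars false

open Polynomial IsLocalRing

namespace Pool.Agent.TIFX

open GT TIF Pool.Agent.TIFT Pool.Agent.TIFP

section

variable {k Ω : Type} [Field k] [Field Ω] [Algebra k Ω] [IsAlgClosed Ω] {d : ℕ} [NeZero d]
  {T : Tab Ω d} [IsDedekindDomain (WB T)] {ρ : Type} [Fintype ρ]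

theorem cls_prod {n : ℕ} (I : Fin n → Ideal (WB T)) (h : ∀ i, I i ≠ ⊥) :
    cls (∏ i, I i) = ∏ i, cls (I i) ∧ (∏ i, I i) ≠ ⊥ := by
  have key : ∀ s : Finset (Fin n), cls (∏ i ∈ s, I i) = ∏ i ∈ s, cls (I i) ∧
      (∏ i ∈ s, I i) ≠ ⊥ := by
    classical
    intro s
    induction s using Finset.induction_on with
    | empty =>
      rw [Finset.prod_empty, Finset.prod_empty]
      refine ⟨?_, ?_⟩
      · rw [Ideal.one_eq_top, ← Ideal.span_singleton_one]
        exact cls_span one_ne_zero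
      · rw [Ideal.one_eq_top]
        exact top_ne_bot
    | insert a s ha ih =>
      rw [Finset.prod_insert ha, Finset.prod_insert ha, ← ih.1]
      exact ⟨cls_mul (h a) ih.2, mul_ne_zero (h a) ih.2⟩
  exact key Finset.univ

theorem TD.prod_cl {K : IntermediateField k Ω} {N : ℕ} (D : TD k T ρ K N) (r : ρ) :
    ∏ i, cl (D.B r i) = 1 := by
  have h1 := cls_prod (fun i => dI (D.B r i)) (fun i => dI_ne_bot _)
  have h2 : D.h r ≠ 0 := by
    intro h
    have := (D.hd r).lc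
    rw [h, (lc_eq_zero_iff (0 : WB T)).2 rfl] at this
    exact zero_ne_one this
  change ∏ i, cls (dI (D.B r i)) = 1
  rw [← h1.1, ← (D.hd r).div]
  exact cls_span h2

/-- an expansion of `s` in theta monomials -/
structure Ex (K : IntermediateField k Ω) (N : ℕ) (s : (ρ → ClassGroup (WB T)) → Ω) where
  n : ℕ
  c : Fin n → Ω
  D : Fin n → TD k T ρ K N
  mem : ∀ i, c i ∈ K
  eq : ∀ x, s x = ∑ i, c i * tmf (D i) x

/-- the points of the expansion are outside `S` -/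
def Ex.Off {K : IntermediateField k Ω} {N : ℕ} {s : (ρ → ClassGroup (WB T)) → Ω} (E : Ex K N s)
    (S : List (Pt T)) : Prop := ∀ i r j, ∀ P ∈ (E.D i).B r j, P ∉ S

theorem exists_ex (hU : Univ k Ω) (hT : Tk k T) {K : IntermediateField k Ω} [IsAlgClosed K]
    (hK : TIFT.Small K) {N : ℕ} {s : (ρ → ClassGroup (WB T)) → Ω} (hs : s ∈ HH T ρ K N)
    (S : List (Pt T)) : ∃ E : Ex K N s, E.Off S := by
  induction hs using Submodule.span_induction with
  | mem s hs =>
    obtain ⟨D, rfl⟩ := hs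
    obtain ⟨D', h1, h2⟩ := exists_TD hT K (fun r i => cl (D.B r i))
      (fun r i => cl_mem_JK hT K (D.pk r i)) (TD.prod_cl D) S
    obtain ⟨c, hc, -, h3⟩ := tmf_congr hU hT hK D' D (fun r i => h1 r i)
    refine ⟨⟨1, fun _ => c, fun _ => D', fun _ => hc, fun x => ?_⟩, fun _ r j P hP => h2 r j P hP⟩
    rw [Fin.sum_univ_one]
    exact h3 x
  | zero => exact ⟨⟨0, Fin.elim0, Fin.elim0, fun i => i.elim0, fun x => by simp⟩, fun i => i.elim0⟩
  | add s s' _ _ h h' =>
    obtain ⟨E, hE⟩ := h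
    obtain ⟨E', hE'⟩ := h'
    refine ⟨⟨E.n + E'.n, Fin.append E.c E'.c, Fin.append E.D E'.D, ?_, ?_⟩, ?_⟩
    · intro i
      refine Fin.addCases (fun i => ?_) (fun i => ?_) i
      · rw [Fin.append_left]; exact E.mem i
      · rw [Fin.append_right]; exact E'.mem i
    · intro x
      rw [Fin.sum_univ_add, Pi.add_apply, E.eq, E'.eq]
      congr 1
      · exact Finset.sum_congr rfl fun i _ => by rw [Fin.append_left, Fin.append_left]
      · exact Finset.sum_congr rfl fun i _ => by rw [Fin.append_right, Fin.append_right]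
    · intro i
      refine Fin.addCases (fun i => ?_) (fun i => ?_) i
      · intro r j P hP
        have hP' : P ∈ (Fin.append E.D E'.D (Fin.castAdd _ i)).B r j := hP
        rw [Fin.append_left] at hP'
        exact hE i r j P hP'
      · intro r j P hP
        have hP' : P ∈ (Fin.append E.D E'.D (Fin.natAdd _ i)).B r j := hP
        rw [Fin.append_right] at hP'
        exact hE' i r j P hP'
  | smul a s _ h =>
    obtain ⟨E, hE⟩ := h
    refine ⟨⟨E.n, fun i => (a : Ω) * E.c i, E.D, fun i => K.mul_mem a.2 (E.mem i), fun x => ?_⟩, hE⟩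
    rw [Pi.smul_apply, E.eq, IntermediateField.smul_def, smul_eq_mul, Finset.mul_sum]
    exact Finset.sum_congr rfl fun i _ => by rw [mul_assoc]

variable {K : IntermediateField k Ω} {N : ℕ} {s : (ρ → ClassGroup (WB T)) → Ω}

/-- the numerator -/
noncomputable def Ex.nm (E : Ex K N s) (X : ρ → List (Pt T)) : Ω :=
  ∑ i, E.c i * TIFT.nm (E.D i) X

/-- the points of the expansion -/
def Ex.In (E : Ex K N s) (P : Pt T) : Prop := ∃ i r j, P ∈ (E.D i).B r j

theorem Ex.in_pk (E : Ex K N s) {P : Pt T} (h : E.In P) : PK k (K : Set Ω) P := by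
  obtain ⟨i, r, j, h⟩ := h
  exact (E.D i).pk r j P h

theorem Ex.ev_ne (E : Ex K N s) {Y : List (Pt T)} (h : ∀ P ∈ Y, ¬ E.In P) (i : Fin E.n) (r : ρ) :
    ev ((E.D i).h r) Y ≠ 0 :=
  TD.ev_ne _ r fun P hP j hj => h P hP ⟨i, r, j, hj⟩

theorem Ex.in_fin (E : Ex K N s) : ∃ S : List (Pt T), ∀ P, E.In P → P ∈ S := by
  classical
  refine ⟨(Finset.univ.toList.flatMap fun i => Finset.univ.toList.flatMap fun r =>
    Finset.univ.toList.flatMap fun j => (E.D i).B r j), fun P hP => ?_⟩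
  obtain ⟨i, r, j, h⟩ := hP
  rw [List.mem_flatMap]
  refine ⟨i, by simp, ?_⟩
  rw [List.mem_flatMap]
  refine ⟨r, by simp, ?_⟩
  rw [List.mem_flatMap]
  exact ⟨j, by simp, h⟩

theorem Ex.nm_eq (E : Ex K N s) {x : ρ → ClassGroup (WB T)} (hx : GenA K x)
    {Y : ρ → List (Pt T)} (hg : ∀ r, gp T ≤ (Y r).length) (hY : ∀ r, Dl (Y r) ≠ 0)
    (hc : ∀ r, cl (Y r) = x r) (h0 : ∀ r, ∀ P ∈ Y r, ¬ E.In P) :
    E.nm Y = s x * ∏ r, Dl (Y r) ^ N := by
  rw [Ex.nm, E.eq, Finset.sum_mul]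
  refine Finset.sum_congr rfl fun i _ => ?_
  rw [nm_tmf (E.D i) hx hg hY hc (fun r => E.ev_ne (h0 r) i r)]
  ring

theorem Ex.nm_perm (E : Ex K N s) {X X' : ρ → List (Pt T)} (h : ∀ r, (X r).Perm (X' r)) :
    ∃ u : Ω, (u = 1 ∨ u = -1) ∧ E.nm X' = u * E.nm X := by
  obtain ⟨u, hu, h1⟩ := TIFT.nm_perm (k := k) h N
  refine ⟨u, hu, ?_⟩
  rw [Ex.nm, Ex.nm, Finset.mul_sum]
  refine Finset.sum_congr rfl fun i _ => ?_
  rw [h1 K (E.D i)]
  ring

theorem Ex.nm_perm_ne (E : Ex K N s) {X X' : ρ → List (Pt T)} (h : ∀ r, (X r).Perm (X' r)) :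
    E.nm X' ≠ 0 ↔ E.nm X ≠ 0 := by
  obtain ⟨u, hu, h1⟩ := E.nm_perm h
  rw [h1]
  rcases hu with rfl | rfl <;> simp

theorem Ex.nm_last [DecidableEq ρ] (E : Ex K N s) (X : ρ → List (Pt T)) (r : ρ)
    (hg : gp T ≤ (X r).length) (h0 : ∀ P ∈ X r, ¬ E.In P) :
    ∃ F : WB T, F ∈ dI (X r) ^ N ∧ 
      ∀ P : Pt T, ¬ E.In P → E.nm (Function.update X r (X r ++ [P])) = P F := by
  choose F h1 h2 h3 using fun i => TIFT.nm_last (E.D i) X r hg (E.ev_ne h0 i r)
  refine ⟨∑ i, E.c i • F i, ?_, fun P hP => ?_⟩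
  · exact Submodule.sum_mem _ fun i _ => Submodule.smul_of_tower_mem _ _ (h1 i)
  · rw [Ex.nm, map_sum]
    refine Finset.sum_congr rfl fun i _ => ?_
    rw [map_smul, smul_eq_mul, h3 i P]
    have := E.ev_ne (Y := [P]) (by simpa using hP) i r
    simpa [ev] using this

end

end Pool.Agent.TIFX
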