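import Pool.Agent.TIFX.R2

/-!
# [TIF, block PIG] input RAT: replacing generic points by points over `K`
-/

set_option autoImplicit false
set_option linter.unusedSectionVars false

open Polynomial IsLocalRing

namespace Pool.Agent.TIFX

open GT TIF Pool.Agent.TIFT Pool.Agent.TIFP

section

variable {k Ω : Type} [Field k] [Field Ω] [Algebra k Ω] [IsAlgClosed Ω] {d : ℕ} [NeZero d]
  {T : Tab Ω d} [IsDedekindDomain (WB T)] {ρ : Type} [Fintype ρ] [DecidableEq ρ]

/-- append the points of `l` to the family `W` -/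
def ad (W : ρ → List (Pt T)) (l : List (ρ × Pt T)) (r : ρ) : List (Pt T) :=
  W r ++ (l.filter fun p => p.1 = r).map Prod.snd

theorem ad_nil (W : ρ → List (Pt T)) : ad W [] = W := by
  funext r
  simp [ad]

theorem ad_cons (W : ρ → List (Pt T)) (r : ρ) (P : Pt T) (l : List (ρ × Pt T)) :
    ad W ((r, P) :: l) = ad (Function.update W r (W r ++ [P])) l := by
  funext r'
  by_cases h : r' = r
  · subst h
    simp [ad]
  · have h' : ¬ r = r' := fun e => h e.symm
    simp [ad, h, h']

theorem ad_perm (W : ρ → List (Pt T)) (r : ρ) (P : Pt T) (l : List (ρ × Pt T)) (r' : ρ) :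
    (ad (Function.update W r (W r ++ [P])) l r').Perm
      (Function.update (ad W l) r (ad W l r ++ [P]) r') := by
  by_cases h : r' = r
  · subst h
    simp only [ad, Function.update_self, List.append_assoc]
    exact List.Perm.append_left _ (List.perm_append_comm)
  · rw [Function.update_of_ne h, ad, ad, Function.update_of_ne h]

theorem mem_ad {W : ρ → List (Pt T)} {l : List (ρ × Pt T)} {r : ρ} {P : Pt T} :
    P ∈ ad W l r ↔ P ∈ W r ∨ (r, P) ∈ l := by
  rw [ad, List.mem_append, List.mem_map]
  constructor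
  · rintro (h | ⟨⟨r', P'⟩, h, rfl⟩)
    · exact Or.inl h
    · rw [List.mem_filter] at h
      simp only [decide_eq_true_eq] at h
      obtain ⟨h, rfl⟩ := h
      exact Or.inr h
  · rintro (h | h)
    · exact Or.inl h
    · exact Or.inr ⟨(r, P), by rw [List.mem_filter]; exact ⟨h, by simp⟩, rfl⟩

theorem replace (hT : Tk k T) {K : IntermediateField k Ω} [IsAlgClosed K] {N : ℕ}
    {s : (ρ → ClassGroup (WB T)) → Ω} (E : Ex K N s) {n : ℕ} (l : List (ρ × Pt T)) :
    ∀ (W : Fin n → ρ → List (Pt T)) (S : List (Pt T)), (∀ j r, gp T ≤ (W j r).length) →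
      (∀ j r, ∀ P ∈ W j r, ¬ E.In P) → (∀ p ∈ l, ¬ E.In p.2) → (∀ P, E.In P → P ∈ S) →
      (∀ j, E.nm (ad (W j) l) ≠ 0) →
      ∃ l' : List (ρ × Pt T), l'.map Prod.fst = l.map Prod.fst ∧
        (∀ p ∈ l', PK k (K : Set Ω) p.2 ∧ p.2 ∉ S) ∧ (l'.map Prod.snd).Nodup ∧
        ∀ j, E.nm (ad (W j) l') ≠ 0 := by
  induction l with
  | nil =>
    intro W S hg h0 hl hS hne
    exact ⟨[], rfl, by simp, List.nodup_nil, hne⟩
  | cons p l ih =>
    obtain ⟨r, Q⟩ := p
    intro W S hg h0 hl hS hne
    have hQ : ¬ E.In Q := hl (r, Q) (List.mem_cons_self ..)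
    have hl' : ∀ p ∈ l, ¬ E.In p.2 := fun p hp => hl p (List.mem_cons_of_mem _ hp)
    have hg' : ∀ j r, gp T ≤ (ad (W j) l r).length := fun j r => by
      rw [ad, List.length_append]
      exact (hg j r).trans (Nat.le_add_right _ _)
    have h0' : ∀ j, ∀ P ∈ ad (W j) l r, ¬ E.In P := by
      intro j P hP
      rcases mem_ad.1 hP with h | h
      · exact h0 j r P h
      · exact hl' (r, P) h
    choose F hF1 hF2 using fun j => E.nm_last (ad (W j) l) r (hg' j r) (h0' j)
    have hF0 : ∀ j, F j ≠ 0 := by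
      intro j hj
      have h1 := hne j
      rw [ad_cons, ← E.nm_perm_ne (ad_perm (W j) r Q l), hF2 j Q hQ, hj, map_zero] at h1
      exact h1 rfl
    obtain ⟨P, hPK, hPS, hPF⟩ : ∃ P : Pt T, PK k (K : Set Ω) P ∧ P ∉ S ∧ P (∏ j, F j) ≠ 0 := by
      by_contra hno
      push Not at hno
      exact Finset.prod_ne_zero_iff.2 (fun j _ => hF0 j)
        (zero_of_pk hT K S fun P hP hPS => hno P hP hPS)
    have hPE : ¬ E.In P := fun h => hPS (hS P h)
    rw [map_prod, Finset.prod_ne_zero_iff] at hPF
    obtain ⟨l', h1, h2, h3, h4⟩ := ih (fun j => Function.update (W j) r (W j r ++ [P])) (P :: S)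
      (fun j r' => by
        by_cases h : r' = r
        · subst h
          rw [Function.update_self, List.length_append]
          exact (hg j r').trans (Nat.le_add_right _ _)
        · rw [Function.update_of_ne h]
          exact hg j r')
      (fun j r' P' hP' => by
        by_cases h : r' = r
        · subst h
          rw [Function.update_self, List.mem_append, List.mem_singleton] at hP'
          rcases hP' with h | rfl
          · exact h0 j r' P' h
          · exact hPE
        · rw [Function.update_of_ne h] at hP'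
          exact h0 j r' P' hP')
      hl' (fun P' h => List.mem_cons_of_mem _ (hS P' h))
      (fun j => by
        rw [← E.nm_perm_ne (ad_perm (W j) r P l), hF2 j P hPE]
        exact hPF j (Finset.mem_univ j))
    refine ⟨(r, P) :: l', ?_, ?_, ?_, ?_⟩
    · rw [List.map_cons, List.map_cons, h1]
    · intro p hp
      rcases List.mem_cons.1 hp with rfl | hp
      · exact ⟨hPK, hPS⟩
      · exact ⟨(h2 p hp).1, fun h => (h2 p hp).2 (List.mem_cons_of_mem _ h)⟩
    · rw [List.map_cons, List.nodup_cons]
      refine ⟨fun h => ?_, h3⟩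
      obtain ⟨p, hp, hpP⟩ := List.mem_map.1 h
      exact (h2 p hp).2 (by rw [hpP]; exact List.mem_cons_self ..)
    · intro j
      rw [ad_cons]
      exact h4 j

end

end Pool.Agent.TIFX
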