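import Pool.Agent.TIFX.R3

/-!
# [TIF, block PIG] input RAT: the zeros of a function on a translate of the curve
-/

set_option autoImplicit false
set_option linter.unusedSectionVars false

open Polynomial IsLocalRing

namespace Pool.Agent.TIFX

open GT TIF Pool.Agent.TIFT Pool.Agent.TIFP

section

variable {k Ω : Type} [Field k] [Field Ω] [Algebra k Ω] [IsAlgClosed Ω] {d : ℕ} [NeZero d]
  {T : Tab Ω d} [IsDedekindDomain (WB T)] {ρ : Type} [Fintype ρ]

theorem cl_nil' : cl ([] : List (Pt T)) = 1 := by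
  rw [cl, dI_nil, ← Ideal.span_singleton_one]
  exact cls_span one_ne_zero

theorem cl_single (P : Pt T) : cl [P] = iot P := by
  rw [cl, dI, iot]
  simp [mP]

theorem iot_mem (hT : Tk k T) {K : IntermediateField k Ω} {P : Pt T} (hP : PK k (K : Set Ω) P) :
    iot P ∈ JK (T := T) (K : Set Ω) := by
  rw [← cl_single]
  exact cl_mem_JK hT K (by simpa using hP)

theorem exists_monic {I : Ideal (WB T)} (hI : I ≠ ⊥) (h : cls I = 1) :
    ∃ g : WB T, lc g = 1 ∧ Ideal.span {g} = I := by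
  obtain ⟨b, hb⟩ := (cls_eq_one_iff hI).1 h
  have hb0 : b ≠ 0 := by
    rintro rfl
    exact hI (by rw [hb, Ideal.span_singleton_eq_bot])
  have hl : lc b ≠ 0 := lc_ne hb0
  refine ⟨(lc b)⁻¹ • b, by rw [lc_smul, inv_mul_cancel₀ hl], ?_⟩
  rw [hb, Algebra.smul_def]
  apply Ideal.span_singleton_mul_left_unit
  exact (IsUnit.mk0 _ (inv_ne_zero hl)).map (algebraMap Ω (WB T))

/-- a product of the factors of a family with one of them changed -/
theorem prod_update [DecidableEq ρ] {M : Type} [CommMonoid M] {A : Type} (f : A → M) (X : ρ → A)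
    (r : ρ) (a : A) :
    ∏ r', f (Function.update X r a r') = f a * ∏ r' ∈ Finset.univ.erase r, f (X r') := by
  rw [← Finset.mul_prod_erase _ _ (Finset.mem_univ r), Function.update_self]
  congr 1
  refine Finset.prod_congr rfl fun r' hr' => ?_
  rw [Function.update_of_ne (Finset.ne_of_mem_erase hr')]

variable {K : IntermediateField k Ω} {N : ℕ} {s : (ρ → ClassGroup (WB T)) → Ω}

theorem gen_mul (hU : Univ k Ω) (hT : Tk k T) (hK : TIFT.Small K) {x z : ρ → ClassGroup (WB T)}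
    (h : GenA K x) (hz : ∀ r, z r ∈ JK (T := T) (K : Set Ω)) : GenA K (x * z) :=
  genA_mul hU hT hK h fun r => JK_mono (le_acl K) (hz r)

theorem Dl_gen (hU : Univ k Ω) (hT : Tk k T) (hK : TIFT.Small K) {y : ρ → ClassGroup (WB T)}
    (hy : GenA K y) {r : ρ} {Y : List (Pt T)} (hg : gp T ≤ Y.length) (hn : Y.Nodup)
    (hc : cl Y = y r) : Dl Y ≠ 0 :=
  (Dl_ne_zero_iff hg).2 ⟨hn, by rw [hc]; exact (genA_Ns hU hT hK hy r).1⟩

/-- an admissible family of points of the generic class `y` -/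
structure Fam (K : IntermediateField k Ω) {N : ℕ} {s : (ρ → ClassGroup (WB T)) → Ω} (E : Ex K N s)
    (y : ρ → ClassGroup (WB T)) (Y : ρ → List (Pt T)) : Prop where
  gen : GenA K y
  len : ∀ r, gp T ≤ (Y r).length
  nd : ∀ r, (Y r).Nodup
  cl : ∀ r, cl (Y r) = y r
  off : ∀ r, ∀ P ∈ Y r, ¬ E.In P

variable [DecidableEq ρ]

theorem Fam.val (hU : Univ k Ω) (hT : Tk k T) (hK : TIFT.Small K) {E : Ex K N s}
    {y : ρ → ClassGroup (WB T)} {Y : ρ → List (Pt T)} (h : Fam K E y Y) (r : ρ) {P : Pt T}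
    (hP : PK k (K : Set Ω) P) (hPE : ¬ E.In P) (hPY : P ∉ Y r) :
    GenA K (y * Pi.mulSingle r (iot P)) ∧ Dl (Y r ++ [P]) ≠ 0 ∧
    E.nm (Function.update Y r (Y r ++ [P])) =
      s (y * Pi.mulSingle r (iot P)) * (Dl (Y r ++ [P]) ^ N *
        ∏ r' ∈ Finset.univ.erase r, Dl (Y r') ^ N) := by
  have hgen : GenA K (y * Pi.mulSingle r (iot P)) := by
    refine gen_mul hU hT hK h.gen fun r' => ?_
    by_cases hr : r' = r
    · subst hr
      rw [Pi.mulSingle_eq_same]
      exact iot_mem hT hP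
    · rw [Pi.mulSingle_eq_of_ne hr]
      exact JK_one hT K
  have hcl : ∀ r', TIFT.cl (Function.update Y r (Y r ++ [P]) r') =
      (y * Pi.mulSingle r (iot P) : ρ → ClassGroup (WB T)) r' := by
    intro r'
    by_cases hr : r' = r
    · subst hr
      rw [Function.update_self, cl_append, h.cl, cl_single, Pi.mul_apply, Pi.mulSingle_eq_same]
    · rw [Function.update_of_ne hr, h.cl, Pi.mul_apply, Pi.mulSingle_eq_of_ne hr, mul_one]
  have hlen : ∀ r', gp T ≤ (Function.update Y r (Y r ++ [P]) r').length := by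
    intro r'
    by_cases hr : r' = r
    · subst hr
      rw [Function.update_self, List.length_append]
      exact (h.len r').trans (Nat.le_add_right _ _)
    · rw [Function.update_of_ne hr]
      exact h.len r'
  have hnd : ∀ r', (Function.update Y r (Y r ++ [P]) r').Nodup := by
    intro r'
    by_cases hr : r' = r
    · subst hr
      rw [Function.update_self, List.nodup_append]
      refine ⟨h.nd r', List.nodup_singleton P, ?_⟩
      intro a ha b hb hab
      rw [List.mem_singleton] at hb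
      rw [hab, hb] at ha
      exact hPY ha
    · rw [Function.update_of_ne hr]
      exact h.nd r'
  have hDl : ∀ r', Dl (Function.update Y r (Y r ++ [P]) r') ≠ 0 := fun r' =>
    Dl_gen hU hT hK hgen (hlen r') (hnd r') (hcl r')
  refine ⟨hgen, ?_, ?_⟩
  · have := hDl r
    rwa [Function.update_self] at this
  · rw [E.nm_eq hgen hlen hDl hcl ?_, prod_update (fun X => Dl X ^ N)]
    intro r' P' hP'
    by_cases hr : r' = r
    · subst hr
      rw [Function.update_self, List.mem_append, List.mem_singleton] at hP'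
      rcases hP' with h1 | rfl
      · exact h.off r' P' h1
      · exact hPE
    · rw [Function.update_of_ne hr] at hP'
      exact h.off r' P' hP'

/-- the function `q` of the last point and the ideal of its zeros -/
structure QI (E : Ex K N s) (Y : ρ → List (Pt T)) (r : ρ) (q : WB T) (I : Ideal (WB T)) : Prop where
  q0 : q ≠ 0
  i0 : I ≠ ⊥
  div : Ideal.span {q} = dI (Y r) ^ N * I
  val : ∀ P, ¬ E.In P → E.nm (Function.update Y r (Y r ++ [P])) = P q

theorem s_ne (hU : Univ k Ω) (hT : Tk k T) (hK : TIFT.Small K) (hs : s ∈ HH T ρ K N) (h0 : s ≠ 0)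
    {y : ρ → ClassGroup (WB T)} (hy : GenA K y) : s y ≠ 0 := fun h =>
  h0 (zero_HH hU hT hK hs hy h)

theorem Fam.exists_qI [IsAlgClosed K] (hU : Univ k Ω) (hT : Tk k T) (hK : TIFT.Small K)
    (hs : s ∈ HH T ρ K N) (h0 : s ≠ 0) {E : Ex K N s}
    {y : ρ → ClassGroup (WB T)} {Y : ρ → List (Pt T)} (h : Fam K E y Y) (r : ρ) :
    ∃ q I, QI E Y r q I := by
  obtain ⟨q, h1, h2⟩ := E.nm_last Y r (h.len r) (h.off r)
  obtain ⟨S, hS⟩ := E.in_fin
  obtain ⟨P, hP, hPS⟩ := exists_pk hT K (S ++ Y r)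
  rw [List.mem_append, not_or] at hPS
  have hPE : ¬ E.In P := fun h => hPS.1 (hS P h)
  obtain ⟨h3, h4, h5⟩ := h.val hU hT hK r hP hPE hPS.2
  have hDl : ∀ r', Dl (Y r') ≠ 0 := fun r' => Dl_gen hU hT hK h.gen (h.len r') (h.nd r') (h.cl r')
  have hq : q ≠ 0 := by
    rintro rfl
    rw [h2 P hPE, map_zero] at h5
    exact mul_ne_zero (s_ne hU hT hK hs h0 h3) (mul_ne_zero (pow_ne_zero _ h4)
      (Finset.prod_ne_zero_iff.2 fun r' _ => pow_ne_zero _ (hDl r'))) h5.symm
  obtain ⟨I, hI⟩ := Ideal.dvd_iff_le.2 ((Ideal.span_singleton_le_iff_mem _).2 h1)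
  refine ⟨q, I, hq, ?_, hI, h2⟩
  rintro rfl
  rw [Ideal.mul_bot, Ideal.span_singleton_eq_bot] at hI
  exact hq hI

/-- the ideal depends only on the class -/
theorem QI.indep [IsAlgClosed K] (hU : Univ k Ω) (hT : Tk k T) (hK : TIFT.Small K)
    {E : Ex K N s}
    {y : ρ → ClassGroup (WB T)} {Y Y' : ρ → List (Pt T)} (h : Fam K E y Y) (h' : Fam K E y Y')
    {r : ρ} {q q' : WB T} {I I' : Ideal (WB T)} (hq : QI E Y r q I) (hq' : QI E Y' r q' I') :
    I = I' := by
  obtain ⟨S, hS⟩ := E.in_fin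
  have hDl : ∀ r', Dl (Y r') ≠ 0 := fun r' => Dl_gen hU hT hK h.gen (h.len r') (h.nd r') (h.cl r')
  have hDl' : ∀ r', Dl (Y' r') ≠ 0 := fun r' =>
    Dl_gen hU hT hK h'.gen (h'.len r') (h'.nd r') (h'.cl r')
  obtain ⟨F, hF, -⟩ := exists_last (Y r)
  obtain ⟨F', hF', -⟩ := exists_last (Y' r)
  obtain ⟨-, -, d1⟩ := div_last (h.len r) (hDl r) hF
  obtain ⟨-, -, d2⟩ := div_last (h'.len r) (hDl' r) hF'
  set c := ∏ r' ∈ Finset.univ.erase r, Dl (Y r') ^ N with hc
  set c' := ∏ r' ∈ Finset.univ.erase r, Dl (Y' r') ^ N with hc'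
  have hc0 : c ≠ 0 := Finset.prod_ne_zero_iff.2 fun r' _ => pow_ne_zero _ (hDl r')
  have hc0' : c' ≠ 0 := Finset.prod_ne_zero_iff.2 fun r' _ => pow_ne_zero _ (hDl' r')
  have key : (c' • q) * F' ^ N = (c • q') * F ^ N := by
    apply eq_of_pk hT K (S ++ (Y r ++ Y' r))
    intro P hP hPS
    rw [List.mem_append, List.mem_append, not_or, not_or] at hPS
    have hPE : ¬ E.In P := fun h => hPS.1 (hS P h)
    obtain ⟨-, -, h5⟩ := h.val hU hT hK r hP hPE hPS.2.1
    obtain ⟨-, -, h6⟩ := h'.val hU hT hK r hP hPE hPS.2.2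
    rw [hq.val P hPE, ← hc] at h5
    rw [hq'.val P hPE, ← hc'] at h6
    rw [map_mul, map_mul, map_smul, map_smul, map_pow, map_pow, hF, hF', smul_eq_mul, smul_eq_mul,
      h5, h6]
    ring
  have hsp : ∀ (c : Ω), c ≠ 0 → ∀ q : WB T, Ideal.span {c • q} = Ideal.span {q} := by
    intro c hc q
    rw [Algebra.smul_def]
    exact Ideal.span_singleton_mul_left_unit ((IsUnit.mk0 _ hc).map (algebraMap Ω (WB T))) q
  have key2 := congrArg (fun b => Ideal.span {b}) key
  simp only [← Ideal.span_singleton_mul_span_singleton, ← Ideal.span_singleton_pow, hsp c hc0,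
    hsp c' hc0', hq.div, hq'.div, d1, d2, h.cl, h'.cl] at key2
  have hR : rdc ((y r)⁻¹) ≠ ⊥ := rdc_ne _
  have h7 : (dI (Y r) ^ N * dI (Y' r) ^ N * rdc (y r)⁻¹ ^ N) * I =
      (dI (Y r) ^ N * dI (Y' r) ^ N * rdc (y r)⁻¹ ^ N) * I' := by
    rw [mul_pow, mul_pow] at key2
    calc _ = dI (Y r) ^ N * I * (dI (Y' r) ^ N * rdc (y r)⁻¹ ^ N) := by ring
      _ = _ := key2
      _ = _ := by ring
  exact mul_left_cancel₀ (mul_ne_zero (mul_ne_zero (pow_ne_zero _ (dI_ne_bot _))
    (pow_ne_zero _ (dI_ne_bot _))) (pow_ne_zero _ hR)) h7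

end

end Pool.Agent.TIFX
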