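import Pool.Agent.TIFX.R4

/-!
# [TIF, block PIG] input RAT: the theta monomials `D_P`, `D'_P`
-/

set_option autoImplicit false
set_option linter.unusedSectionVars false

open Polynomial IsLocalRing

namespace Pool.Agent.TIFX

open GT TIF Pool.Agent.TIFT Pool.Agent.TIFP

section

variable {k Ω : Type} [Field k] [Field Ω] [Algebra k Ω] [IsAlgClosed Ω] {d : ℕ} [NeZero d]
  {T : Tab Ω d} [IsDedekindDomain (WB T)] {ρ : Type} [Fintype ρ]
  {K : IntermediateField k Ω}

/-- a list of points over `K`, all different -/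
def Nk (K : IntermediateField k Ω) (a : List (Pt T)) : Prop :=
  a.Nodup ∧ ∀ P ∈ a, PK k (K : Set Ω) P

theorem Nk.nil : Nk K ([] : List (Pt T)) := ⟨List.nodup_nil, by simp⟩

/-- a theta monomial with three nontrivial lists -/
def mk3 (n : ℕ) (a b c : ρ → List (Pt T)) (h : ρ → WB T) (ha : ∀ r, Nk K (a r))
    (hb : ∀ r, Nk K (b r)) (hc : ∀ r, Nk K (c r)) (hl : ∀ r, lc (h r) = 1)
    (hd : ∀ r, Ideal.span {h r} = dI (a r) * dI (b r) * dI (c r)) : TD k T ρ K (n + 1 + 1 + 1) where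
  B r := Fin.cons (a r) (Fin.cons (b r) (Fin.cons (c r) (fun _ => [])))
  h := h
  hd r := ⟨hl r, by
    rw [Fin.prod_univ_succ, Fin.prod_univ_succ, Fin.prod_univ_succ]
    simp only [Fin.cons_zero, Fin.cons_succ, dI_nil, ← Ideal.one_eq_top, Finset.prod_const_one,
      mul_one]
    rw [hd r, mul_assoc]⟩
  nd r i := by
    refine Fin.cases (ha r).1 (fun i => ?_) i
    refine Fin.cases (hb r).1 (fun i => ?_) i
    refine Fin.cases (hc r).1 (fun i => ?_) i
    exact List.nodup_nil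
  pk r i := by
    refine Fin.cases (ha r).2 (fun i => ?_) i
    refine Fin.cases (hb r).2 (fun i => ?_) i
    refine Fin.cases (hc r).2 (fun i => ?_) i
    intro P hP
    cases hP

theorem mk3_tmf {n : ℕ} {a b c : ρ → List (Pt T)} {h : ρ → WB T} (ha : ∀ r, Nk K (a r))
    (hb : ∀ r, Nk K (b r)) (hc : ∀ r, Nk K (c r)) (hl : ∀ r, lc (h r) = 1)
    (hd : ∀ r, Ideal.span {h r} = dI (a r) * dI (b r) * dI (c r))
    {x : ρ → ClassGroup (WB T)} (hx : GenA K x) {X : ρ → List (Pt T)}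
    (hg : ∀ r, gp T ≤ (X r).length) (hX : ∀ r, Dl (X r) ≠ 0) (hcl : ∀ r, cl (X r) = x r)
    (h0 : ∀ r, ev (h r) (X r) ≠ 0) :
    tmf (mk3 n a b c h ha hb hc hl hd) x * ∏ r, (Dl (X r) ^ 3 * ev (h r) (X r)) =
      ∏ r, (Dl (a r ++ X r) * Dl (b r ++ X r) * Dl (c r ++ X r)) := by
  rw [tmf_eval (mk3 n a b c h ha hb hc hl hd) hx hg hX hcl h0, ← Finset.prod_mul_distrib]
  refine Finset.prod_congr rfl fun r _ => ?_
  have h1 : (∏ i, Dl ((mk3 n a b c h ha hb hc hl hd).B r i ++ X r)) =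
      Dl (a r ++ X r) * Dl (b r ++ X r) * Dl (c r ++ X r) * Dl (X r) ^ n := by
    rw [Fin.prod_univ_succ, Fin.prod_univ_succ, Fin.prod_univ_succ]
    simp only [mk3, Fin.cons_zero, Fin.cons_succ, List.nil_append, Finset.prod_const,
      Finset.card_univ, Fintype.card_fin]
    ring
  have h2 : ((mk3 n a b c h ha hb hc hl hd).h r) = h r := rfl
  rw [th, h1, h2]
  have h3 := hX r
  have h4 := h0 r
  field_simp
  ring

theorem mk3_prod {n : ℕ} {a b c : ρ → List (Pt T)} {h : ρ → WB T} (ha : ∀ r, Nk K (a r))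
    (hb : ∀ r, Nk K (b r)) (hc : ∀ r, Nk K (c r)) (hl : ∀ r, lc (h r) = 1)
    (hd : ∀ r, Ideal.span {h r} = dI (a r) * dI (b r) * dI (c r))
    (s : (ρ → ClassGroup (WB T)) → Ω) (x : ρ → ClassGroup (WB T)) :
    ∏ i, s (x * fun r => cl ((mk3 n a b c h ha hb hc hl hd).B r i)) =
      s (x * fun r => cl (a r)) * s (x * fun r => cl (b r)) * s (x * fun r => cl (c r)) *
        s x ^ n := by
  rw [Fin.prod_univ_succ, Fin.prod_univ_succ, Fin.prod_univ_succ]
  simp only [mk3, Fin.cons_zero, Fin.cons_succ, cl_nil', Finset.prod_const,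
      Finset.card_univ, Fintype.card_fin]
  have h1 : (x * fun _ => 1) = x := mul_one x
  rw [h1]
  ring

end

end Pool.Agent.TIFX
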