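import Pool.Agent.TIFX.R5

/-!
# [TIF, block PIG] input RAT: the quotient of two values
-/

set_option autoImplicit false
set_option linter.unusedSectionVars false

open Polynomial IsLocalRing

namespace Pool.Agent.TIFX

open GT TIF Pool.Agent.TIFT Pool.Agent.TIFP

section

variable {k Ω : Type} [Field k] [Field Ω] [Algebra k Ω] [IsAlgClosed Ω] {d : ℕ} [NeZero d]
  {T : Tab Ω d} [IsDedekindDomain (WB T)] {ρ : Type} [Fintype ρ] [DecidableEq ρ]
  {K : IntermediateField k Ω} {N : ℕ} {s : (ρ → ClassGroup (WB T)) → Ω}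

/-- the values of the functions `F_a` are in `κ` -/
def Vals (K κ : IntermediateField k Ω) (N : ℕ) (s : (ρ → ClassGroup (WB T)) → Ω) (n : ℕ)
    (x : ρ → ClassGroup (WB T)) : Prop :=
  ∀ D : TD k T ρ K n, (∏ i, s (x * fun r => cl (D.B r i))) * tmf D x ^ N / s x ^ n ∈ κ

theorem ev_ne_zero' {b : WB T} {X : List (Pt T)} (h : ∀ P ∈ X, P b ≠ 0) : ev b X ≠ 0 := by
  rw [Ne, ev_eq_zero_iff]
  rintro ⟨P, hP, h0⟩
  exact h P hP h0

theorem pt_ne_of_span {b : WB T} {A : List (Pt T)} (h : Ideal.span {b} = dI A) {P : Pt T}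
    (hP : P ∉ A) : P b ≠ 0 := by
  intro h0
  apply hP
  rw [← dI_le_mP, ← h, Ideal.span_singleton_le_iff_mem]
  exact h0

theorem Dl_perm_pow {X Y : List (Pt T)} (h : X.Perm Y) (N : ℕ) :
    ∃ u : Ω, (u = 1 ∨ u = -1) ∧ Dl Y ^ N = u * Dl X ^ N := by
  rcases Dl_perm h with h1 | h1
  · exact ⟨1, Or.inl rfl, by rw [h1, one_mul]⟩
  · refine ⟨(-1) ^ N, neg_one_pow_eq_or Ω N, ?_⟩
    rw [h1, ← mul_pow]
    congr 1
    ring

/-- the quotient of the values at `x` and at `x c` on the curve -/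
theorem ratio [IsAlgClosed K] (hU : Univ k Ω) (hT : Tk k T) (hK : TIFT.Small K)
    (hs : s ∈ HH T ρ K N) (h0 : s ≠ 0) {x : ρ → ClassGroup (WB T)} (hx : GenA K x)
    {X : ρ → List (Pt T)} (hXi : IndA K X) (hXg : ∀ r, (X r).length = gp T)
    (hXc : ∀ r, cl (X r) = x r) {κ : IntermediateField k Ω} {n : ℕ}
    (hv : Vals K κ N s (n + 1 + 1 + 1) x) {C : ρ → List (Pt T)} (hC : ∀ r, Nk K (C r)) (r₀ : ρ) :
    ∃ γ : Ω, γ ≠ 0 ∧ ∀ P : Pt T, PK k (K : Set Ω) P → P ∉ C r₀ → ∃ u ∈ κ,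
      γ * (s (x * Pi.mulSingle r₀ (iot P)) * Dl (X r₀ ++ [P]) ^ N) =
        u * (s ((x * fun r => cl (C r)) * Pi.mulSingle r₀ (iot P)) *
          Dl (X r₀ ++ C r₀ ++ [P]) ^ N) := by
  have hXn : ∀ r, (X r).Nodup := fun r => ind_nodup (hXi.ind r)
  have hXg' : ∀ r, gp T ≤ (X r).length := fun r => (hXg r).ge
  have hXK : ∀ r, ∀ P ∈ X r, ¬ PK k (K : Set Ω) P := fun r P hP => not_PK (hXi.ind r) hP
  have hXD : ∀ r, Dl (X r) ≠ 0 := fun r => Dl_gen hU hT hK hx (hXg' r) (hXn r) (hXc r)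
  -- the lists `E`
  have hE : ∀ r, ∃ (E : List (Pt T)) (e : WB T), Nk K E ∧ cl E = (cl (C r))⁻¹ ∧ lc e = 1 ∧
      Ideal.span {e} = dI (C r) * dI E := by
    intro r
    obtain ⟨E, h1, -, h2, -, h3⟩ := exists_repK hT K (JK_inv hT K (cl_mem_JK hT K (hC r).2)) []
      (le_refl (nT T))
    obtain ⟨e, h4, h5⟩ := exists_monic (I := dI (C r) * dI E)
      (mul_ne_zero (dI_ne_bot _) (dI_ne_bot _)) (by
        rw [cls_mul (dI_ne_bot _) (dI_ne_bot _)]
        change cl (C r) * cl E = 1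
        rw [h2, mul_inv_cancel])
    exact ⟨E, e, ⟨h1, h3⟩, h2, h4, h5⟩
  choose E e hEn hEc hel hed using hE
  have heX : ∀ r, ev (e r) (X r) ≠ 0 := fun r => ev_ne_zero' fun P hP => by
    refine pt_ne_of_span (A := C r ++ E r) (by rw [hed r, dI_append]) ?_
    rw [List.mem_append]
    rintro (h | h)
    · exact hXK r P hP ((hC r).2 P h)
    · exact hXK r P hP ((hEn r).2 P h)
  have hEX : ∀ r, Dl (E r ++ X r) ≠ 0 := fun r =>
    (Dl_B_ne hU hT hK hXi hXg' (hEn r).1 (hEn r).2 r).1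
  have hCX : ∀ r, Dl (C r ++ X r) ≠ 0 := fun r =>
    (Dl_B_ne hU hT hK hXi hXg' (hC r).1 (hC r).2 r).1
  have hsx : s x ≠ 0 := s_ne hU hT hK hs h0 hx
  have hsE : s (x * fun r => cl (E r)) ≠ 0 :=
    s_ne hU hT hK hs h0 (gen_mul hU hT hK hx fun r => cl_mem_JK hT K (hEn r).2)
  obtain ⟨α, hα⟩ : ∃ α, α = (∏ r, Dl (E r ++ X r)) * ∏ r ∈ Finset.univ.erase r₀, Dl (C r ++ X r) :=
    ⟨_, rfl⟩
  obtain ⟨β, hβ⟩ : ∃ β, β = (∏ r, (Dl (X r) * ev (e r) (X r))) *
    ∏ r ∈ Finset.univ.erase r₀, Dl (X r) := ⟨_, rfl⟩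
  have hα0 : α ≠ 0 := by
    rw [hα]
    exact mul_ne_zero (Finset.prod_ne_zero_iff.2 fun r _ => hEX r)
      (Finset.prod_ne_zero_iff.2 fun r _ => hCX r)
  have hβ0 : β ≠ 0 := by
    rw [hβ]
    exact mul_ne_zero (Finset.prod_ne_zero_iff.2 fun r _ => mul_ne_zero (hXD r) (heX r))
      (Finset.prod_ne_zero_iff.2 fun r _ => hXD r)
  refine ⟨s x * β ^ N / (s (x * fun r => cl (E r)) * α ^ N), div_ne_zero
    (mul_ne_zero hsx (pow_ne_zero _ hβ0)) (mul_ne_zero hsE (pow_ne_zero _ hα0)), ?_⟩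
  intro P hP hPC
  -- the list `G`
  obtain ⟨G, g, hGn, hGc, hgl, hgd⟩ : ∃ (G : List (Pt T)) (g : WB T), Nk K G ∧
      cl G = (iot P)⁻¹ ∧ lc g = 1 ∧ Ideal.span {g} = dI [P] * dI G := by
    obtain ⟨E, h1, -, h2, -, h3⟩ := exists_repK hT K (JK_inv hT K (iot_mem hT hP)) []
      (le_refl (nT T))
    obtain ⟨e, h4, h5⟩ := exists_monic (I := dI [P] * dI E)
      (mul_ne_zero (dI_ne_bot _) (dI_ne_bot _)) (by
        rw [cls_mul (dI_ne_bot _) (dI_ne_bot _)]
        change cl [P] * cl E = 1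
        rw [h2, cl_single, mul_inv_cancel])
    exact ⟨E, e, ⟨h1, h3⟩, h2, h4, h5⟩
  have hPn : Nk K [P] := ⟨List.nodup_singleton P, by simpa using hP⟩
  let a : ρ → List (Pt T) := fun r => if r = r₀ then [P] else []
  let b : ρ → List (Pt T) := fun r => if r = r₀ then G else []
  let h : ρ → WB T := fun r => if r = r₀ then g else 1
  have ha : ∀ r, Nk K (a r) := fun r => by
    by_cases hr : r = r₀
    · simp only [a, hr, if_true]; exact hPn
    · simp only [a, hr, if_false]; exact Nk.nil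
  have hb : ∀ r, Nk K (b r) := fun r => by
    by_cases hr : r = r₀
    · simp only [b, hr, if_true]; exact hGn
    · simp only [b, hr, if_false]; exact Nk.nil
  have hh : ∀ r, lc (h r) = 1 := fun r => by
    by_cases hr : r = r₀
    · simp only [h, hr, if_true]; exact hgl
    · simp only [h, hr, if_false]; exact lc_one
  have hab : ∀ r, Ideal.span {h r} = dI (a r) * dI (b r) := fun r => by
    by_cases hr : r = r₀
    · simp only [a, b, h, hr, if_true]; exact hgd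
    · simp only [a, b, h, hr, if_false]
      rw [dI_nil, Ideal.span_singleton_one, Ideal.mul_top]
  have hCa : ∀ r, Nk K (C r ++ a r) := fun r => by
    by_cases hr : r = r₀
    · subst hr
      simp only [a, if_true]
      refine ⟨?_, ?_⟩
      · rw [List.nodup_append]
        refine ⟨(hC r).1, List.nodup_singleton P, ?_⟩
        intro a ha b hb hab
        rw [List.mem_singleton] at hb
        rw [hab, hb] at ha
        exact hPC ha
      · intro P' hP'
        rw [List.mem_append, List.mem_singleton] at hP'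
        rcases hP' with h | rfl
        · exact (hC r).2 P' h
        · exact hP
    · simp only [a, hr, if_false, List.append_nil]; exact hC r
  have hhX : ∀ r, ev (h r) (X r) ≠ 0 := fun r => ev_ne_zero' fun P' hP' => by
    refine pt_ne_of_span (A := a r ++ b r) (by rw [hab r, dI_append]) ?_
    rw [List.mem_append]
    rintro (h | h)
    · exact hXK r P' hP' ((ha r).2 P' h)
    · exact hXK r P' hP' ((hb r).2 P' h)
  have hevm : ∀ r, ev (h r * e r) (X r) = ev (h r) (X r) * ev (e r) (X r) := fun r => ev_mul _ _ _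
  have hn' : ∀ _ : ρ, Nk K ([] : List (Pt T)) := fun _ => Nk.nil
  have hl' : ∀ r, lc (h r * e r) = 1 := fun r => by rw [lc_mul, hh, hel, mul_one]
  have hd1 : ∀ r, Ideal.span {h r} = dI (a r) * dI (b r) * dI ([] : List (Pt T)) := fun r => by
    rw [hab, dI_nil, Ideal.mul_top]
  have hd2 : ∀ r, Ideal.span {h r * e r} = dI (C r ++ a r) * dI (b r) * dI (E r) := fun r => by
    rw [← Ideal.span_singleton_mul_span_singleton, hab, hed, dI_append]
    ring
  have t1 := mk3_tmf (n := n) ha hb hn' hh hd1 hx hXg' hXD hXc hhX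
  have t2 := mk3_tmf (n := n) hCa hb hEn hl' hd2 hx hXg' hXD hXc
    (fun r => by rw [hevm]; exact mul_ne_zero (hhX r) (heX r))
  have v1 := hv (mk3 n a b (fun _ => []) h ha hb hn' hh hd1)
  have v2 := hv (mk3 n (fun r => C r ++ a r) b E (fun r => h r * e r) hCa hb hEn hl' hd2)
  have hT2 := tmf_ne hU hT hK (mk3 n (fun r => C r ++ a r) b E (fun r => h r * e r) hCa hb hEn hl' hd2) hx
  rw [mk3_prod] at v1 v2
  set t₁ := tmf (mk3 n a b (fun _ => []) h ha hb hn' hh hd1) x with ht1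
  set t₂ := tmf (mk3 n (fun r => C r ++ a r) b E (fun r => h r * e r) hCa hb hEn hl' hd2) x with ht2
  have ea : (x * fun r => cl (a r)) = x * Pi.mulSingle r₀ (iot P) := by
    funext r
    by_cases hr : r = r₀
    · subst hr
      simp only [a, Pi.mul_apply, if_true, Pi.mulSingle_eq_same, cl_single]
    · simp only [a, Pi.mul_apply, hr, if_false, Pi.mulSingle_eq_of_ne hr, cl_nil']
  have eCa : (x * fun r => cl (C r ++ a r)) = (x * fun r => cl (C r)) * Pi.mulSingle r₀ (iot P) := by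
    have h1 : (fun r => cl (C r ++ a r)) = (fun r => cl (C r)) * fun r => cl (a r) := by
      funext r
      rw [Pi.mul_apply, cl_append]
    have h2 : (fun r => cl (a r)) = Pi.mulSingle r₀ (iot P) := by
      funext r
      by_cases hr : r = r₀
      · subst hr
        simp only [a, if_true, Pi.mulSingle_eq_same, cl_single]
      · simp only [a, hr, if_false, Pi.mulSingle_eq_of_ne hr, cl_nil']
    rw [h1, h2, mul_assoc]
  have enil : (x * fun _ : ρ => cl ([] : List (Pt T))) = x := by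
    funext r
    rw [Pi.mul_apply, cl_nil', mul_one]
  rw [ea, enil] at v1
  rw [eCa] at v2
  have hgC : GenA K ((x * fun r => cl (C r)) * Pi.mulSingle r₀ (iot P)) := by
    rw [← eCa]
    exact gen_mul hU hT hK hx fun r => cl_mem_JK hT K (hCa r).2
  have hgb : GenA K (x * fun r => cl (b r)) := gen_mul hU hT hK hx fun r => cl_mem_JK hT K (hb r).2
  have hS2 := s_ne hU hT hK hs h0 hgC
  have hSb := s_ne hU hT hK hs h0 hgb
  -- the relation between `t₁` and `t₂`
  have hbX : ∏ r, Dl (b r ++ X r) ≠ 0 := Finset.prod_ne_zero_iff.2 fun r _ =>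
    (Dl_B_ne hU hT hK hXi hXg' (hb r).1 (hb r).2 r).1
  have pa : ∏ r, Dl (a r ++ X r) = Dl ([P] ++ X r₀) * ∏ r ∈ Finset.univ.erase r₀, Dl (X r) := by
    rw [← Finset.mul_prod_erase _ _ (Finset.mem_univ r₀)]
    congr 1
    · simp only [a, if_true]
    · refine Finset.prod_congr rfl fun r hr => ?_
      simp only [a, Finset.ne_of_mem_erase hr, if_false, List.nil_append]
  have pc : ∏ r, Dl (C r ++ a r ++ X r) = Dl (C r₀ ++ [P] ++ X r₀) *
      ∏ r ∈ Finset.univ.erase r₀, Dl (C r ++ X r) := by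
    rw [← Finset.mul_prod_erase _ _ (Finset.mem_univ r₀)]
    congr 1
    · simp only [a, if_true]
    · refine Finset.prod_congr rfl fun r hr => ?_
      simp only [a, Finset.ne_of_mem_erase hr, if_false, List.append_nil]
  have hA : ∏ r, (Dl (X r) ^ 3 * ev (h r) (X r)) ≠ 0 := Finset.prod_ne_zero_iff.2 fun r _ =>
    mul_ne_zero (pow_ne_zero _ (hXD r)) (hhX r)
  have hEe : ∏ r, ev (e r) (X r) ≠ 0 := Finset.prod_ne_zero_iff.2 fun r _ => heX r
  have t1' : t₁ * (∏ r, (Dl (X r) ^ 3 * ev (h r) (X r))) * (∏ r, ev (e r) (X r)) =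
      Dl ([P] ++ X r₀) * (∏ r, Dl (b r ++ X r)) * β := by
    rw [t1, Finset.prod_mul_distrib, Finset.prod_mul_distrib, pa, hβ, Finset.prod_mul_distrib]
    simp only [List.nil_append]
    ring
  have t2' : t₂ * (∏ r, (Dl (X r) ^ 3 * ev (h r) (X r))) * (∏ r, ev (e r) (X r)) =
      Dl (C r₀ ++ [P] ++ X r₀) * (∏ r, Dl (b r ++ X r)) * α := by
    have h1 : ∏ r, (Dl (X r) ^ 3 * ev (h r * e r) (X r)) =
        (∏ r, (Dl (X r) ^ 3 * ev (h r) (X r))) * (∏ r, ev (e r) (X r)) := by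
      rw [← Finset.prod_mul_distrib]
      exact Finset.prod_congr rfl fun r _ => by rw [hevm, mul_assoc]
    rw [mul_assoc, ← h1, t2, Finset.prod_mul_distrib, Finset.prod_mul_distrib, pc, hα]
    ring
  have hkey : t₁ * Dl (C r₀ ++ [P] ++ X r₀) * α = Dl ([P] ++ X r₀) * β * t₂ := by
    apply mul_right_cancel₀ (mul_ne_zero (mul_ne_zero hA hEe) hbX)
    linear_combination (Dl (C r₀ ++ [P] ++ X r₀) * α * (∏ r, Dl (b r ++ X r))) * t1' -
      (Dl ([P] ++ X r₀) * β * (∏ r, Dl (b r ++ X r))) * t2'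
  obtain ⟨u₁, hu₁, e1⟩ := Dl_perm_pow (T := T) (List.perm_append_comm (l₁ := X r₀) (l₂ := [P])) N
  obtain ⟨u₂, hu₂, e2⟩ := Dl_perm_pow (T := T) (X := X r₀ ++ C r₀ ++ [P]) (Y := C r₀ ++ [P] ++ X r₀)
    (by rw [List.append_assoc]; exact List.perm_append_comm) N
  have hkN : t₁ ^ N * (u₂ * Dl (X r₀ ++ C r₀ ++ [P]) ^ N) * α ^ N =
      (u₁ * Dl (X r₀ ++ [P]) ^ N) * β ^ N * t₂ ^ N := by
    rw [← e1, ← e2, ← mul_pow, ← mul_pow, ← mul_pow, ← mul_pow, hkey]
  have hu1 : u₁ * u₁ = 1 := by rcases hu₁ with rfl | rfl <;> ring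
  have hu2 : u₂ * u₂ = 1 := by rcases hu₂ with rfl | rfl <;> ring
  have hu1K : u₁ ∈ κ := by
    rcases hu₁ with rfl | rfl
    · exact κ.one_mem
    · exact κ.neg_mem κ.one_mem
  have hu2K : u₂ ∈ κ := by
    rcases hu₂ with rfl | rfl
    · exact κ.one_mem
    · exact κ.neg_mem κ.one_mem
  obtain ⟨V₁, hV₁⟩ : ∃ V, V = s (x * Pi.mulSingle r₀ (iot P)) * s (x * fun r => cl (b r)) * s x *
    s x ^ n * t₁ ^ N / s x ^ (n + 1 + 1 + 1) := ⟨_, rfl⟩
  obtain ⟨V₂, hV₂⟩ : ∃ V, V = s ((x * fun r => cl (C r)) * Pi.mulSingle r₀ (iot P)) *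
    s (x * fun r => cl (b r)) * s (x * fun r => cl (E r)) *
    s x ^ n * t₂ ^ N / s x ^ (n + 1 + 1 + 1) := ⟨_, rfl⟩
  rw [← hV₁] at v1
  rw [← hV₂] at v2
  refine ⟨u₁ * u₂ * (V₁ / V₂), κ.mul_mem (κ.mul_mem hu1K hu2K) (κ.div_mem v1 v2), ?_⟩
  have hV : V₁ / V₂ = s (x * Pi.mulSingle r₀ (iot P)) * s x * t₁ ^ N /
      (s ((x * fun r => cl (C r)) * Pi.mulSingle r₀ (iot P)) * s (x * fun r => cl (E r)) *
        t₂ ^ N) := by
    rw [hV₁, hV₂]
    have := pow_ne_zero N hT2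
    field_simp
  rw [hV]
  have hT2N := pow_ne_zero N hT2
  have hαN := pow_ne_zero N hα0
  rw [div_mul_eq_mul_div, mul_div_assoc', div_mul_eq_mul_div, div_eq_div_iff
    (mul_ne_zero hsE hαN) (mul_ne_zero (mul_ne_zero hS2 hsE) hT2N)]
  generalize s (x * Pi.mulSingle r₀ (iot P)) = S1
  generalize s ((x * fun r => cl (C r)) * Pi.mulSingle r₀ (iot P)) = S2
  generalize s (x * fun r => cl (E r)) = SE
  generalize Dl (X r₀ ++ C r₀ ++ [P]) ^ N = DC at *
  generalize Dl (X r₀ ++ [P]) ^ N = DX at *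
  generalize t₁ ^ N = T1 at *
  generalize t₂ ^ N = T2 at *
  generalize α ^ N = AN at *
  generalize β ^ N = BN at *
  linear_combination (-S1 * S2 * SE * s x * u₁) * hkN - (S1 * S2 * SE * s x * DX * BN * T2) * hu1

end

end Pool.Agent.TIFX
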