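import Pool.Agent.TIFX.R6

/-!
# [TIF, block PIG] input RAT
-/

set_option autoImplicit false
set_option linter.unusedSectionVars false

open Polynomial IsLocalRing

namespace Pool.Agent.TIFX

open GT TIF Pool.Agent.TIFT Pool.Agent.TIFP

section

variable {k Ω : Type} [Field k] [Field Ω] [Algebra k Ω] [IsAlgClosed Ω] {d : ℕ} [NeZero d]
  {T : Tab Ω d} [IsDedekindDomain (WB T)] {ρ : Type} [Fintype ρ] [DecidableEq ρ]
  {K : IntermediateField k Ω} {N : ℕ} {s : (ρ → ClassGroup (WB T)) → Ω}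

theorem ad_flat (W Q : ρ → List (Pt T)) (r : ρ) (l : List ρ) (hl : l.Nodup) :
    ad W (l.flatMap fun r => (Q r).map (Prod.mk r)) r = if r ∈ l then W r ++ Q r else W r := by
  have key : ((l.flatMap fun r => (Q r).map (Prod.mk r)).filter fun p => p.1 = r).map Prod.snd =
      if r ∈ l then Q r else [] := by
    induction l with
    | nil => simp
    | cons a l ih =>
      rw [List.nodup_cons] at hl
      rw [List.flatMap_cons, List.filter_append, List.map_append, ih hl.2]
      by_cases h : r = a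
      · subst h
        rw [if_neg hl.1, if_pos (List.mem_cons_self ..), List.append_nil, List.filter_map,
          List.map_map]
        simp [Function.comp_def]
      · have h' : ¬ a = r := fun e => h e.symm
        have h1 : ((Q a).map (Prod.mk a)).filter (fun p => p.1 = r) = [] := by
          rw [List.filter_eq_nil_iff]
          intro p hp
          obtain ⟨P, -, rfl⟩ := List.mem_map.1 hp
          simpa using h'
        rw [h1, List.map_nil, List.nil_append]
        simp [h]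
  rw [ad, key]
  split_ifs <;> simp

theorem ratI_pow (hT : Tk k T) (κ : IntermediateField k Ω) {I : Ideal (WB T)}
    (hI : RatI (κ : Set Ω) I) (n : ℕ) : RatI (κ : Set Ω) (I ^ n) := by
  induction n with
  | zero =>
    rw [pow_zero, Ideal.one_eq_top, ← Ideal.span_singleton_one]
    refine ratI_span hT κ fun j n => ?_
    rw [WB.co_one]
    by_cases hj : j = 0
    · subst hj
      rw [Pi.single_eq_same, coeff_one]
      split_ifs
      · exact κ.one_mem
      · exact κ.zero_mem
    · rw [Pi.single_eq_of_ne hj, coeff_zero]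
      exact κ.zero_mem
  | succ n ih =>
    rw [pow_succ]
    exact ratI_mul hT κ ih hI

/-- **(RAT)** -/
theorem rat_main [IsAlgClosed K] (hU : Univ k Ω) (hT : Tk k T) (hK : TIFT.Small K)
    (hs : s ∈ HH T ρ K N) (h0 : s ≠ 0) {x : ρ → ClassGroup (WB T)} (hx : GenA K x)
    {κ : IntermediateField k Ω} (hκ : K ≤ κ) {n : ℕ} (hv : Vals K κ N s (n + 1 + 1 + 1) x)
    (r₀ : ρ) : x r₀ ^ N ∈ JK (T := T) (κ : Set Ω) := by
  obtain ⟨X, hXg, hXi, hXc⟩ := id hx
  obtain ⟨E, -⟩ := exists_ex hU hT hK hs []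
  obtain ⟨SE, hSE⟩ := E.in_fin
  have hXn : ∀ r, (X r).Nodup := fun r => ind_nodup (hXi.ind r)
  have hXg' : ∀ r, gp T ≤ (X r).length := fun r => (hXg r).ge
  have hXK : ∀ r, ∀ P ∈ X r, ¬ PK k (K : Set Ω) P := fun r P hP => not_PK (hXi.ind r) hP
  have famX : ∀ E : Ex K N s, Fam K E x X := fun E =>
    ⟨hx, hXg', hXn, hXc, fun r P hP h => hXK r P hP (E.in_pk h)⟩
  obtain ⟨q₁, I₁, hQ₁⟩ := (famX E).exists_qI hU hT hK hs h0 r₀
  obtain ⟨Z₁, hZ₁⟩ := exists_dI (T := T) hQ₁.i0
  -- no zero is a point over `K`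
  have hZK : ∀ P ∈ Z₁, ¬ PK k (K : Set Ω) P := by
    intro P hP hPK
    obtain ⟨E', hE'⟩ := exists_ex hU hT hK hs [P]
    obtain ⟨SE', hSE'⟩ := E'.in_fin
    obtain ⟨q', I', hQ'⟩ := (famX E').exists_qI hU hT hK hs h0 r₀
    have hPE' : ¬ E'.In P := by
      rintro ⟨i, r, j, h⟩
      exact hE' i r j P h (List.mem_singleton.2 rfl)
    have hPX : P ∉ X r₀ := fun h => hXK r₀ P h hPK
    have hqq : q₁ = q' := by
      apply eq_of_pk hT K (SE ++ (SE' ++ X r₀))
      intro P' hP' hPS
      rw [List.mem_append, List.mem_append, not_or, not_or] at hPS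
      have a1 : ¬ E.In P' := fun h => hPS.1 (hSE P' h)
      have a2 : ¬ E'.In P' := fun h => hPS.2.1 (hSE' P' h)
      rw [← hQ₁.val P' a1, ← hQ'.val P' a2, ((famX E).val hU hT hK r₀ hP' a1 hPS.2.2).2.2,
        ((famX E').val hU hT hK r₀ hP' a2 hPS.2.2).2.2]
    obtain ⟨b1, b2, b3⟩ := (famX E').val hU hT hK r₀ hPK hPE' hPX
    rw [hQ'.val P hPE'] at b3
    have h1 : q₁ ∈ mP P := by
      have h2 : Ideal.span {q₁} ≤ mP P := by
        rw [hQ₁.div, ← hZ₁]
        exact Ideal.mul_le_right.trans (dI_le_mP.2 hP)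
      exact h2 (Ideal.mem_span_singleton_self _)
    have h2 : P q₁ = 0 := h1
    rw [hqq, b3] at h2
    have hXD : ∀ r, Dl (X r) ≠ 0 := fun r => Dl_gen hU hT hK hx (hXg' r) (hXn r) (hXc r)
    exact mul_ne_zero (s_ne hU hT hK hs h0 b1) (mul_ne_zero (pow_ne_zero _ b2)
      (Finset.prod_ne_zero_iff.2 fun r _ => pow_ne_zero _ (hXD r))) h2
  -- the base family
  choose Y₀ y1 y2 y3 y4 using fun r => exists_rep (x r) (Z₁ ++ SE) (le_refl (nT T))
  have hnT : gp T ≤ nT T := by
    rw [nT]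
    omega
  let L : List (Pt T) := Z₁ ++ Finset.univ.toList.flatMap Y₀
  have hLY : ∀ r, ∀ P ∈ Y₀ r, P ∈ L := fun r P hP => List.mem_append_right _
    (List.mem_flatMap.2 ⟨r, by simp, hP⟩)
  have hLZ : ∀ P ∈ Z₁, P ∈ L := fun P hP => List.mem_append_left _ hP
  have hK' : TIFT.Small (kL K L) := small_kL hT hK L
  have hKK' : K ≤ kL K L := le_kL K L
  have hLK : ∀ P ∈ L, PK k (kL K L : Set Ω) P := fun P hP =>
    (PK_iff_kP (kL K L) P).2 (g_kP_le_kL K hP)
  obtain ⟨x', hx'⟩ := exists_genA (ρ := ρ) hU T hK'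
  obtain ⟨Q, hQg, hQi, -⟩ := id hx'
  have hQg' : ∀ r, gp T ≤ (Q r).length := fun r => (hQg r).ge
  have hQK : ∀ r, ∀ P ∈ Q r, ¬ PK k (kL K L : Set Ω) P := fun r P hP => not_PK (hQi.ind r) hP
  let l : List (ρ × Pt T) := Finset.univ.toList.flatMap fun r => (Q r).map (Prod.mk r)
  have hadl : ∀ (W : ρ → List (Pt T)) r, ad W l r = W r ++ Q r := fun W r => by
    rw [ad_flat W Q r _ (Finset.nodup_toList _), if_pos (by simp)]
  let W : Fin Z₁.length → ρ → List (Pt T) := fun j =>
    Function.update Y₀ r₀ (Y₀ r₀ ++ [Z₁.get j])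
  have hWmem : ∀ j r P, P ∈ W j r → P ∈ Y₀ r ∨ P ∈ Z₁ := by
    intro j r P hP
    by_cases hr : r = r₀
    · subst hr
      simp only [W, Function.update_self, List.mem_append, List.mem_singleton] at hP
      rcases hP with h | rfl
      · exact Or.inl h
      · exact Or.inr (List.get_mem _ _)
    · simp only [W, Function.update_of_ne hr] at hP
      exact Or.inl hP
  have hWL : ∀ j r P, P ∈ W j r → P ∈ L := fun j r P hP => by
    rcases hWmem j r P hP with h | h
    · exact hLY r P h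
    · exact hLZ P h
  have hWE : ∀ j r, ∀ P ∈ W j r, ¬ E.In P := fun j r P hP h => by
    rcases hWmem j r P hP with h1 | h1
    · exact y2 r P h1 (List.mem_append_right _ (hSE P h))
    · exact hZK P h1 (E.in_pk h)
  have hWg : ∀ j r, gp T ≤ (W j r).length := fun j r => by
    by_cases hr : r = r₀
    · subst hr
      simp only [W, Function.update_self, List.length_append, y4]
      omega
    · simp only [W, Function.update_of_ne hr, y4]
      exact hnT
  have hWn : ∀ j r, (W j r).Nodup := fun j r => by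
    by_cases hr : r = r₀
    · subst hr
      simp only [W, Function.update_self]
      rw [List.nodup_append]
      refine ⟨y1 r, List.nodup_singleton _, ?_⟩
      intro a ha b hb hab
      rw [List.mem_singleton] at hb
      rw [hab, hb] at ha
      exact y2 r _ ha (List.mem_append_left _ (List.get_mem _ _))
    · simp only [W, Function.update_of_ne hr]
      exact y1 r
  have hQE : ∀ r, ∀ P ∈ Q r, ¬ E.In P := fun r P hP h =>
    hQK r P hP fun b hb => hKK' (E.in_pk h b hb)
  have hne : ∀ j, E.nm (ad (W j) l) ≠ 0 := by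
    intro j
    have hfun : ad (W j) l = fun r => W j r ++ Q r := funext fun r => hadl _ r
    rw [hfun]
    have hgen : GenA K (fun r => cl (W j r ++ Q r)) := by
      refine genA_mono hKK' ?_
      have h1 : (fun r => cl (W j r ++ Q r)) = (fun r => cl (Q r)) * fun r => cl (W j r) := by
        funext r
        rw [cl_append, Pi.mul_apply, mul_comm]
      rw [h1]
      exact gen_mul hU hT hK' (genA_cl hU hT hK' hQi hQg') fun r =>
        cl_mem_JK hT _ fun P hP => hLK P (hWL j r P hP)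
    have hlen : ∀ r, gp T ≤ (W j r ++ Q r).length := fun r => by
      rw [List.length_append]
      exact (hWg j r).trans (Nat.le_add_right _ _)
    have hnd : ∀ r, (W j r ++ Q r).Nodup := fun r => by
      rw [List.nodup_append]
      refine ⟨hWn j r, ind_nodup (hQi.ind r), ?_⟩
      intro a ha b hb hab
      rw [hab] at ha
      exact hQK r b hb (hLK b (hWL j r b ha))
    have hD : ∀ r, Dl (W j r ++ Q r) ≠ 0 := fun r =>
      Dl_gen hU hT hK hgen (r := r) (hlen r) (hnd r) rfl
    rw [E.nm_eq hgen hlen hD (fun r => rfl) ?_]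
    · exact mul_ne_zero (s_ne hU hT hK hs h0 hgen)
        (Finset.prod_ne_zero_iff.2 fun r _ => pow_ne_zero _ (hD r))
    · intro r P hP
      rcases List.mem_append.1 hP with h | h
      · exact hWE j r P h
      · exact hQE r P h
  obtain ⟨l', -, hl2, hl3, hl4⟩ := replace hT E l W (SE ++ (L ++ X r₀)) hWg hWE
    (by
      intro p hp
      obtain ⟨r, -, hp⟩ := List.mem_flatMap.1 hp
      obtain ⟨P, hP, rfl⟩ := List.mem_map.1 hp
      exact hQE r P hP)
    (fun P h => List.mem_append_left _ (hSE P h)) hne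
  let C : ρ → List (Pt T) := fun r => (l'.filter fun p => p.1 = r).map Prod.snd
  have hCmem : ∀ r P, P ∈ C r → PK k (K : Set Ω) P ∧ P ∉ SE ++ (L ++ X r₀) := by
    intro r P hP
    obtain ⟨p, hp, rfl⟩ := List.mem_map.1 hP
    exact hl2 p (List.mem_of_mem_filter hp)
  have hCn : ∀ r, (C r).Nodup := fun r =>
    hl3.sublist (List.Sublist.map _ List.filter_sublist)
  have hC : ∀ r, Nk K (C r) := fun r => ⟨hCn r, fun P hP => (hCmem r P hP).1⟩
  have hCE : ∀ r, ∀ P ∈ C r, ¬ E.In P := fun r P hP h =>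
    (hCmem r P hP).2 (List.mem_append_left _ (hSE P h))
  have hgy : GenA K (x * fun r => cl (C r)) :=
    gen_mul hU hT hK hx fun r => cl_mem_JK hT K (hC r).2
  have famY : Fam K E (x * fun r => cl (C r)) (ad Y₀ l') := by
    refine ⟨hgy, fun r => ?_, fun r => ?_, fun r => ?_, fun r P hP => ?_⟩
    · rw [ad, List.length_append, y4]
      exact hnT.trans (Nat.le_add_right _ _)
    · change (Y₀ r ++ C r).Nodup
      rw [List.nodup_append]
      refine ⟨y1 r, hCn r, ?_⟩
      intro a ha b hb hab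
      rw [hab] at ha
      exact (hCmem r b hb).2 (List.mem_append_right _ (List.mem_append_left _ (hLY r b ha)))
    · change cl (Y₀ r ++ C r) = _
      rw [cl_append, y3, Pi.mul_apply]
    · rcases List.mem_append.1 hP with h | h
      · exact fun h1 => y2 r P h (List.mem_append_right _ (hSE P h1))
      · exact hCE r P h
  have famX' : Fam K E (x * fun r => cl (C r)) (fun r => X r ++ C r) := by
    refine ⟨hgy, fun r => ?_, fun r => ?_, fun r => ?_, fun r P hP => ?_⟩
    · rw [List.length_append]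
      exact (hXg' r).trans (Nat.le_add_right _ _)
    · rw [List.nodup_append]
      refine ⟨hXn r, hCn r, ?_⟩
      intro a ha b hb hab
      rw [hab] at ha
      exact hXK r b ha (hCmem r b hb).1
    · rw [cl_append, hXc, Pi.mul_apply]
    · rcases List.mem_append.1 hP with h | h
      · exact fun h1 => hXK r P h (E.in_pk h1)
      · exact hCE r P h
  obtain ⟨qY, IY, hQY⟩ := famY.exists_qI hU hT hK hs h0 r₀
  obtain ⟨q', I', hQ'⟩ := famX'.exists_qI hU hT hK hs h0 r₀
  have hII : I' = IY := QI.indep hU hT hK famX' famY hQ' hQY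
  -- coprime
  have hcop : I₁ ⊔ I' = ⊤ := by
    by_contra hne'
    obtain ⟨M, hM, hle⟩ := Ideal.exists_le_maximal _ hne'
    have hM0 : M ≠ ⊥ := by
      rintro rfl
      exact hQ₁.i0 (le_bot_iff.1 (le_sup_left.trans hle))
    obtain ⟨P, hP⟩ := exists_hom M hM hM0
    have hPM : mP P = M := hP
    have h1 : P ∈ Z₁ := by
      rw [← dI_le_mP, hZ₁, hPM]
      exact le_sup_left.trans hle
    obtain ⟨j, hj⟩ := List.get_of_mem h1
    have h2 : qY ∈ mP P := by
      have h3 : Ideal.span {qY} ≤ mP P := by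
        rw [hQY.div, hPM, ← hII]
        exact Ideal.mul_le_right.trans (le_sup_right.trans hle)
      exact h3 (Ideal.mem_span_singleton_self _)
    have h3 : P qY = 0 := h2
    rw [← hQY.val P (fun h => hZK P h1 (E.in_pk h))] at h3
    have h4 := hl4 j
    simp only [W, hj] at h4
    rw [← E.nm_perm_ne (ad_perm Y₀ r₀ P l')] at h4
    exact h4 h3
  -- the quotient
  obtain ⟨γ, hγ, hrat⟩ := ratio hU hT hK hs h0 hx hXi hXg hXc hv hC r₀
  have hXD : ∀ r, Dl (X r) ≠ 0 := fun r => Dl_gen hU hT hK hx (hXg' r) (hXn r) (hXc r)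
  obtain ⟨c₁, hc₁⟩ : ∃ c, c = ∏ r ∈ Finset.univ.erase r₀, Dl (X r) ^ N := ⟨_, rfl⟩
  obtain ⟨c₂, hc₂⟩ : ∃ c, c = ∏ r ∈ Finset.univ.erase r₀, Dl (X r ++ C r) ^ N := ⟨_, rfl⟩
  have hc₁0 : c₁ ≠ 0 := by
    rw [hc₁]
    exact Finset.prod_ne_zero_iff.2 fun r _ => pow_ne_zero _ (hXD r)
  have hc₂0 : c₂ ≠ 0 := by
    rw [hc₂]
    exact Finset.prod_ne_zero_iff.2 fun r _ => pow_ne_zero _
      (Dl_gen hU hT hK famX'.gen (famX'.len r) (famX'.nd r) (famX'.cl r))
  have hδ : γ * c₂ / c₁ ≠ 0 := div_ne_zero (mul_ne_zero hγ hc₂0) hc₁0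
  obtain ⟨A, B, hA, hB, hB0, hAB⟩ := exists_AB (T := T) hT K κ hκ (SE ++ (X r₀ ++ C r₀))
    (q := (γ * c₂ / c₁) • q₁) (q' := q') hQ'.q0 (by
      intro P hP hPS
      rw [List.mem_append, not_or] at hPS
      have hPE : ¬ E.In P := fun h => hPS.1 (hSE P h)
      have hPX : P ∉ X r₀ := fun h => hPS.2 (List.mem_append_left _ h)
      have hPC : P ∉ C r₀ := fun h => hPS.2 (List.mem_append_right _ h)
      obtain ⟨u, hu, hu'⟩ := hrat P hP hPC
      refine ⟨u, hu, ?_⟩
      rw [map_smul, smul_eq_mul, ← hQ₁.val P hPE, ← hQ'.val P hPE,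
        ((famX E).val hU hT hK r₀ hP hPE hPX).2.2, (famX'.val hU hT hK r₀ hP hPE hPS.2).2.2,
        ← hc₁, ← hc₂]
      rw [div_mul_eq_mul_div, div_eq_iff hc₁0]
      linear_combination (c₁ * c₂) * hu')
  have hsp : Ideal.span {(γ * c₂ / c₁) • q₁} = Ideal.span {q₁} := by
    rw [Algebra.smul_def]
    exact Ideal.span_singleton_mul_left_unit ((IsUnit.mk0 _ hδ).map (algebraMap Ω (WB T))) q₁
  have hid : Ideal.span {B} * I₁ = (Ideal.span {A} * dI (C r₀) ^ N) * I' := by
    have h1 := congrArg (fun b => Ideal.span {b}) hAB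
    simp only [← Ideal.span_singleton_mul_span_singleton, hsp, hQ₁.div, hQ'.div, dI_append,
      mul_pow] at h1
    apply mul_left_cancel₀ (pow_ne_zero N (dI_ne_bot (X r₀)))
    calc _ = Ideal.span {B} * (dI (X r₀) ^ N * I₁) := by ring
      _ = _ := h1.symm
      _ = _ := by ring
  have hfin := sup_mul_eq hid hcop
  have hBb : Ideal.span {B} ≠ ⊥ := by
    rw [Ne, Ideal.span_singleton_eq_bot]
    exact hB0
  have hg0 : Ideal.span {B} ⊔ Ideal.span {A} * dI (C r₀) ^ N ≠ ⊥ := fun h =>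
    hBb (le_bot_iff.1 (le_sup_left.trans h.le))
  have hb0 : Ideal.span {A} * dI (C r₀) ^ N ≠ ⊥ := by
    rw [← hfin]
    exact mul_ne_zero hg0 hQ₁.i0
  have hrb : RatI (κ : Set Ω) (Ideal.span {A} * dI (C r₀) ^ N) :=
    ratI_mul hT κ (ratI_span hT κ hA) (ratI_pow hT κ (ratI_dI hT κ fun P hP b hb =>
      hκ ((hC r₀).2 P hP b hb)) N)
  have hrg : RatI (κ : Set Ω) (Ideal.span {B} ⊔ Ideal.span {A} * dI (C r₀) ^ N) :=
    ratI_sup (ratI_span hT κ hB) hrb
  have h5 : cls I₁ ∈ JK (T := T) (κ : Set Ω) := by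
    have h6 : cls I₁ = cls (Ideal.span {A} * dI (C r₀) ^ N) *
        (cls (Ideal.span {B} ⊔ Ideal.span {A} * dI (C r₀) ^ N))⁻¹ := by
      rw [eq_mul_inv_iff_mul_eq, mul_comm, ← cls_mul hg0 hQ₁.i0, hfin]
    rw [h6]
    exact JK_mul hT κ (cls_mem_JK hT κ hb0 hrb) (JK_inv hT κ (cls_mem_JK hT κ hg0 hrg))
  have h7 : x r₀ ^ N = (cls I₁)⁻¹ := by
    have h8 : cls (Ideal.span {q₁}) = 1 := cls_span hQ₁.q0
    rw [hQ₁.div, cls_mul (pow_ne_zero _ (dI_ne_bot _)) hQ₁.i0] at h8
    have h9 : ∀ m : ℕ, cls (dI (X r₀) ^ m) = x r₀ ^ m := by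
      intro m
      induction m with
      | zero =>
        rw [pow_zero, pow_zero, Ideal.one_eq_top, ← Ideal.span_singleton_one]
        exact cls_span one_ne_zero
      | succ m ih =>
        rw [pow_succ, pow_succ, cls_mul (pow_ne_zero _ (dI_ne_bot _)) (dI_ne_bot _), ih]
        congr 1
        exact hXc r₀
    rw [h9] at h8
    exact eq_inv_of_mul_eq_one_left h8
  rw [h7]
  exact JK_inv hT κ h5

end

end Pool.Agent.TIFX
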